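import Pool.Agent.HIK.Stmts

/-!
# Squad HIK, row DZC: calculus of density zero
-/

set_option autoImplicit false

namespace Pool.Agent.HIK.H94

open Polynomial NumberField Pool.Agent.HIK

/-- criterion for density zero -/
theorem dens_of {K : Type} [Field K] [NumberField K] (S : Set (𝓞 K))
    (h : ∀ ε : ℝ, 0 < ε → ∃ X0 : ℕ, ∀ X : ℕ, X0 ≤ X →
      (Nat.card {a : 𝓞 K // a ∈ S ∧ house (a : K) ≤ X} : ℝ) ≤
        ε * (X : ℝ) ^ Module.finrank ℚ K) : DZ K S := by
  unfold DZ
  rw [Metric.tendsto_atTop]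
  intro ε hε
  obtain ⟨X0, hX⟩ := h (ε / 2) (by linarith)
  refine ⟨X0 + 1, fun X hX1 => ?_⟩
  have h1 := hX X (by omega)
  have hXpos : (0 : ℝ) < X := by
    have : 0 < X := by omega
    exact_mod_cast this
  have hp : 0 < (X : ℝ) ^ Module.finrank ℚ K := by positivity
  rw [Real.dist_eq, sub_zero, abs_of_nonneg (by positivity), div_lt_iff₀ hp]
  nlinarith

theorem fin_le (box : BoxStmt) {K : Type} [Field K] [NumberField K] (S : Set (𝓞 K)) (X : ℕ) :
    Finite {a : 𝓞 K // a ∈ S ∧ house (a : K) ≤ X} := by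
  obtain ⟨C, hC⟩ := box K
  exact Set.Finite.to_subtype ((hC X).1.subset fun _ h => h.2)

theorem dens_mono (box : BoxStmt) {K : Type} [Field K] [NumberField K] {S T : Set (𝓞 K)}
    (hST : S ⊆ T) (hT : DZ K T) : DZ K S := by
  unfold DZ at *
  refine squeeze_zero (fun X => by positivity) (fun X => ?_) hT
  have := fin_le box T X
  have h1 : Nat.card {a : 𝓞 K // a ∈ S ∧ house (a : K) ≤ X} ≤
      Nat.card {a : 𝓞 K // a ∈ T ∧ house (a : K) ≤ X} :=
    Nat.card_le_card_of_injective (fun n => ⟨n.1, hST n.2.1, n.2.2⟩)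
      (fun a b hab => Subtype.ext (by simpa using hab))
  have : (Nat.card {a : 𝓞 K // a ∈ S ∧ house (a : K) ≤ X} : ℝ) ≤
      Nat.card {a : 𝓞 K // a ∈ T ∧ house (a : K) ≤ X} := by
    exact_mod_cast h1
  gcongr

theorem dens_union (box : BoxStmt) {K : Type} [Field K] [NumberField K] {S T : Set (𝓞 K)}
    (hS : DZ K S) (hT : DZ K T) : DZ K (S ∪ T) := by
  unfold DZ at *
  have h := hS.add hT
  rw [add_zero] at h
  refine squeeze_zero (fun X => by positivity) (fun X => ?_) h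
  have f1 := fin_le box S X
  have f2 := fin_le box T X
  have h1 : Nat.card {a : 𝓞 K // a ∈ S ∪ T ∧ house (a : K) ≤ X} ≤
      Nat.card {a : 𝓞 K // a ∈ S ∧ house (a : K) ≤ X} +
        Nat.card {a : 𝓞 K // a ∈ T ∧ house (a : K) ≤ X} := by
    classical
    rw [← Nat.card_sum]
    refine Nat.card_le_card_of_injective (fun n => if h : n.1 ∈ S then Sum.inl ⟨n.1, h, n.2.2⟩
      else Sum.inr ⟨n.1, n.2.1.resolve_left h, n.2.2⟩) ?_
    intro a b hab
    by_cases ha : a.1 ∈ S <;> by_cases hb : b.1 ∈ S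
    · simp only [ha, hb, dite_true, Sum.inl.injEq, Subtype.mk.injEq] at hab
      exact Subtype.ext hab
    · simp [ha, hb] at hab
    · simp [ha, hb] at hab
    · simp only [ha, hb, dite_false, Sum.inr.injEq, Subtype.mk.injEq] at hab
      exact Subtype.ext hab
  have h2 : (Nat.card {a : 𝓞 K // a ∈ S ∪ T ∧ house (a : K) ≤ X} : ℝ) ≤
      Nat.card {a : 𝓞 K // a ∈ S ∧ house (a : K) ≤ X} +
        Nat.card {a : 𝓞 K // a ∈ T ∧ house (a : K) ≤ X} := by
    exact_mod_cast h1
  rw [← add_div]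
  gcongr

theorem dens_finite (box : BoxStmt) {K : Type} [Field K] [NumberField K] (S : Set (𝓞 K))
    (hS : S.Finite) : DZ K S := by
  apply dens_of
  intro ε hε
  have hfin : Finite S := hS.to_subtype
  obtain ⟨X0, hX0⟩ := exists_nat_gt ((Nat.card S : ℝ) / ε)
  refine ⟨X0 + 1, fun X hX => ?_⟩
  have h1 : Nat.card {a : 𝓞 K // a ∈ S ∧ house (a : K) ≤ X} ≤ Nat.card S :=
    Nat.card_le_card_of_injective (fun n => (⟨n.1, n.2.1⟩ : S))
      (fun a b hab => Subtype.ext (by simpa using hab))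
  have h2 : (Nat.card {a : 𝓞 K // a ∈ S ∧ house (a : K) ≤ X} : ℝ) ≤ Nat.card S := by
    exact_mod_cast h1
  have h3 : (1 : ℝ) ≤ X := by
    have : 1 ≤ X := by omega
    exact_mod_cast this
  have h4 : (X0 : ℝ) ≤ X := by
    have : X0 ≤ X := by omega
    exact_mod_cast this
  have h5 : (X : ℝ) ≤ (X : ℝ) ^ Module.finrank ℚ K := by
    have hm : 1 ≤ Module.finrank ℚ K := Module.finrank_pos
    calc (X : ℝ) = (X : ℝ) ^ 1 := (pow_one _).symm
      _ ≤ (X : ℝ) ^ Module.finrank ℚ K := pow_le_pow_right₀ h3 hm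
  rw [div_lt_iff₀ hε] at hX0
  calc (Nat.card {a : 𝓞 K // a ∈ S ∧ house (a : K) ≤ X} : ℝ) ≤ Nat.card S := h2
    _ ≤ X0 * ε := hX0.le
    _ ≤ X * ε := mul_le_mul_of_nonneg_right h4 hε.le
    _ = ε * X := mul_comm _ _
    _ ≤ ε * (X : ℝ) ^ Module.finrank ℚ K := mul_le_mul_of_nonneg_left h5 hε.le

theorem dens_iUnion (box : BoxStmt) {K : Type} [Field K] [NumberField K] {ι : Type} [Finite ι]
    (S : ι → Set (𝓞 K)) (h : ∀ i, DZ K (S i)) : DZ K (⋃ i, S i) := by
  classical
  cases nonempty_fintype ι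
  have : ∀ s : Finset ι, DZ K (⋃ i ∈ s, S i) := by
    intro s
    induction s using Finset.induction_on with
    | empty => simpa using dens_finite box (∅ : Set (𝓞 K)) Set.finite_empty
    | insert a s ha ih =>
      rw [Finset.set_biUnion_insert]
      exact dens_union box (h a) ih
  simpa using this Finset.univ

/-- row DZC -/
theorem dzc (box : BoxStmt) : DzcStmt := by
  intro K _ _
  exact ⟨fun S T hST hT => dens_mono box hST hT, fun ι _ S h => dens_iUnion box S h,
    fun S hS => dens_finite box S hS, fun S h => dens_of S h⟩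

end Pool.Agent.HIK.H94
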